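import Mathlib

/-!
# Products of `Δ`-spaces
-/

open Set Filter Topology

namespace Pool.Agent.helper65.Delta

/-- `X` is a `Δ`-space. -/
def IsDelta (X : Type*) [TopologicalSpace X] : Prop :=
  ∀ D : ℕ → Set X, Antitone D → (⋂ n, D n) = ∅ →
    ∃ V : ℕ → Set X, Antitone V ∧ (∀ n, IsOpen (V n)) ∧ (∀ n, D n ⊆ V n) ∧ (⋂ n, V n) = ∅

/-- `Y` is an increasing union of sets `Z N` such that for every `N` the points `y` of `Y` have open
neighbourhoods `W y` with every point of `Z N` in only finitely many of them. -/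
def IsSigmaFinite (Y : Type*) [TopologicalSpace Y] : Prop :=
  ∃ Z : ℕ → Set Y, Monotone Z ∧ (⋃ n, Z n) = univ ∧
    ∀ N, ∃ W : Y → Set Y, (∀ y, IsOpen (W y)) ∧ (∀ y, y ∈ W y) ∧
      ∀ z ∈ Z N, {y | z ∈ W y}.Finite

theorem IsDelta.prod {X Y : Type*} [TopologicalSpace X] [TopologicalSpace Y] (hX : IsDelta X)
    (hY : IsSigmaFinite Y) : IsDelta (X × Y) := by
  intro D hD hDe
  obtain ⟨Z, hZ, hZu, hW⟩ := hY
  choose W hWo hWm hWf using hW
  have h1 : ∀ y : Y, ∃ V : ℕ → Set X, Antitone V ∧ (∀ n, IsOpen (V n)) ∧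
      (∀ n, {x | (x, y) ∈ D n} ⊆ V n) ∧ (⋂ n, V n) = ∅ := by
    intro y
    refine hX (fun n => {x | (x, y) ∈ D n}) (fun m n hmn x hx => hD hmn hx) ?_
    rw [eq_empty_iff_forall_notMem]
    intro x hx
    have : (x, y) ∈ ⋂ n, D n := mem_iInter.2 fun n => mem_iInter.1 hx n
    rw [hDe] at this
    exact this
  choose V hVa hVo hVs hVe using h1
  let W' : ℕ → Y → Set Y := fun n y => ⋂ i ∈ Finset.range (n + 1), W i y
  have hW'a : ∀ y, Antitone fun n => W' n y := by
    intro y m n hmn z hz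
    simp only [W', mem_iInter, Finset.mem_range] at hz ⊢
    exact fun i hi => hz i (by omega)
  have hW'o : ∀ n y, IsOpen (W' n y) := fun n y => isOpen_biInter_finset fun i _ => hWo i y
  have hW'm : ∀ n y, y ∈ W' n y := by
    intro n y
    simp only [W', mem_iInter, Finset.mem_range]
    exact fun i _ => hWm i y
  refine ⟨fun n => ⋃ y, V y n ×ˢ W' n y, ?_, fun n => isOpen_iUnion fun y =>
    (hVo y n).prod (hW'o n y), ?_, ?_⟩
  · intro m n hmn p hp
    simp only [mem_iUnion, mem_prod] at hp ⊢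
    obtain ⟨y, h2, h3⟩ := hp
    exact ⟨y, hVa y hmn h2, hW'a y hmn h3⟩
  · rintro n ⟨x, y⟩ hp
    simp only [mem_iUnion, mem_prod]
    exact ⟨y, hVs y n hp, hW'm n y⟩
  · rw [eq_empty_iff_forall_notMem]
    rintro ⟨x, z⟩ hp
    simp only [mem_iInter, mem_iUnion, mem_prod] at hp
    obtain ⟨N, hN⟩ : ∃ N, z ∈ Z N := by
      have : z ∈ ⋃ n, Z n := by rw [hZu]; exact mem_univ z
      exact mem_iUnion.1 this
    have hfin := hWf N z hN
    choose y hy1 hy2 using hp
    have h2 : ∀ n, N ≤ n → y n ∈ {y | z ∈ W N y} := by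
      intro n hn
      have h3 := hy2 n
      simp only [W', mem_iInter, Finset.mem_range] at h3
      exact h3 N (by omega)
    -- the pigeonhole principle
    obtain ⟨y₀, hy₀⟩ : ∃ y₀, ∀ n, ∃ k, n ≤ k ∧ y k = y₀ := by
      by_contra hcon
      push Not at hcon
      choose f hf using hcon
      have h4 : ∃ B, ∀ w ∈ {y | z ∈ W N y}, f w ≤ B := by
        obtain ⟨B, hB⟩ := (hfin.image f).bddAbove
        exact ⟨B, fun w hw => hB (mem_image_of_mem f hw)⟩
      obtain ⟨B, hB⟩ := h4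
      have h5 := h2 (max N B) (le_max_left _ _)
      exact hf (y (max N B)) (max N B) ((hB _ h5).trans (le_max_right _ _)) rfl
    have h6 : x ∈ ⋂ n, V y₀ n := by
      refine mem_iInter.2 fun n => ?_
      obtain ⟨k, hk, hk2⟩ := hy₀ n
      have h7 := hy1 k
      rw [hk2] at h7
      exact hVa y₀ hk h7
    rw [hVe] at h6
    exact h6

/-- Spaces of finite-support functions are `σ`-finite. -/
theorem isSigmaFinite_finite_support {κ : Type*} (K : Set (κ → Bool))
    (hK : ∀ f ∈ K, {i | f i = true}.Finite) : IsSigmaFinite K := by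
  refine ⟨fun _ => univ, fun _ _ _ => le_rfl, iUnion_const _, fun _ =>
    ⟨fun f => {g | ∀ i, f.1 i = true → g.1 i = true}, ?_, fun f i h => h, ?_⟩⟩
  · intro f
    have h1 : {g : K | ∀ i, f.1 i = true → g.1 i = true} =
        ⋂ i ∈ {i | f.1 i = true}, {g : K | g.1 i = true} := by
      ext g
      simp
    show IsOpen {g : K | ∀ i, f.1 i = true → g.1 i = true}
    rw [h1]
    refine (hK f.1 f.2).isOpen_biInter fun i _ => ?_
    have h2 : Continuous fun g : K => g.1 i := (continuous_apply i).comp continuous_subtype_val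
    exact (isOpen_discrete {true}).preimage h2
  · intro g _
    have h1 := hK g.1 g.2
    have h2 : (𝒫 {i | g.1 i = true}).Finite := h1.powerset
    refine Set.Finite.of_finite_image (f := fun f : K => {i | f.1 i = true}) (h2.subset ?_) ?_
    · rintro _ ⟨f, hf, rfl⟩
      exact hf
    · intro f _ f' _ h
      refine Subtype.ext (funext fun i => ?_)
      have h3 : (f.1 i = true) ↔ (f'.1 i = true) := by
        have : i ∈ {i | f.1 i = true} ↔ i ∈ {i | f'.1 i = true} := by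
          simp only at h
          rw [h]
        exact this
      exact Bool.eq_iff_iff.2 h3

/-- Adding a countable open set to a `σ`-finite space. -/
theorem isSigmaFinite_of_countable {Y : Type*} [TopologicalSpace Y] [T1Space Y] (O : Set Y)
    (hO : IsOpen O) (hc : O.Countable) (h : IsSigmaFinite ↥Oᶜ) : IsSigmaFinite Y := by
  classical
  obtain ⟨Z, hZ, hZu, hW⟩ := h
  choose W hWo hWm hWf using hW
  obtain ⟨e, he⟩ := Set.countable_iff_exists_injOn.1 hc
  have hfin : ∀ N, {y | y ∈ O ∧ e y ≤ N}.Finite := by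
    intro N
    refine Set.Finite.of_finite_image (f := e) ((Set.finite_Iic N).subset ?_)
      (he.mono fun y hy => hy.1)
    rintro _ ⟨y, hy, rfl⟩
    exact hy.2
  have hfin' : ∀ N, {y | y ∈ O ∧ e y < N}.Finite := fun N =>
    (hfin N).subset fun y hy => ⟨hy.1, hy.2.le⟩
  have hext : ∀ (N : ℕ) (y : ↥Oᶜ), ∃ U : Set Y, IsOpen U ∧ Subtype.val ⁻¹' U = W N y :=
    fun N y => isOpen_induced_iff.1 (hWo N y)
  choose U hUo hU using hext
  refine ⟨fun N => {y | (y ∈ O ∧ e y ≤ N) ∨ ∃ h : y ∈ Oᶜ, (⟨y, h⟩ : ↥Oᶜ) ∈ Z N}, ?_, ?_, fun N =>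
    ⟨fun y => if h : y ∈ Oᶜ then U N ⟨y, h⟩ \ {y | y ∈ O ∧ e y ≤ N} else
      O \ {z | z ∈ O ∧ e z < e y}, ?_, ?_, ?_⟩⟩
  · intro m n hmn y hy
    rcases hy with ⟨h1, h2⟩ | ⟨h1, h2⟩
    · exact Or.inl ⟨h1, h2.trans hmn⟩
    · exact Or.inr ⟨h1, hZ hmn h2⟩
  · rw [eq_univ_iff_forall]
    intro y
    by_cases hy : y ∈ O
    · exact mem_iUnion.2 ⟨e y, Or.inl ⟨hy, le_rfl⟩⟩
    · have h1 : (⟨y, hy⟩ : ↥Oᶜ) ∈ ⋃ n, Z n := by rw [hZu]; exact mem_univ _
      obtain ⟨n, hn⟩ := mem_iUnion.1 h1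
      exact mem_iUnion.2 ⟨n, Or.inr ⟨hy, hn⟩⟩
  · intro y
    by_cases hy : y ∈ Oᶜ
    · simp only [hy, dite_true]
      exact (hUo N _).sdiff (hfin N).isClosed
    · simp only [hy, dite_false]
      exact hO.sdiff (hfin' _).isClosed
  · intro y
    by_cases hy : y ∈ Oᶜ
    · simp only [hy, dite_true]
      refine ⟨?_, fun h2 => hy h2.1⟩
      have := hWm N ⟨y, hy⟩
      rw [← hU] at this
      exact this
    · simp only [hy, dite_false]
      exact ⟨not_not.1 hy, fun h2 => lt_irrefl _ h2.2⟩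
  · rintro z (⟨hz, hzN⟩ | ⟨hz, hzN⟩)
    · refine (hfin (e z)).subset fun y hy => ?_
      by_cases hyO : y ∈ Oᶜ
      · simp only [mem_setOf_eq, hyO, dite_true] at hy
        exact absurd ⟨hz, hzN⟩ hy.2
      · simp only [mem_setOf_eq, hyO, dite_false] at hy
        refine ⟨not_not.1 hyO, ?_⟩
        by_contra hcon
        exact hy.2 ⟨hz, not_le.1 hcon⟩
    · refine ((hWf N ⟨z, hz⟩ hzN).image Subtype.val).subset fun y hy => ?_
      by_cases hyO : y ∈ Oᶜ
      · simp only [mem_setOf_eq, hyO, dite_true] at hy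
        refine ⟨⟨y, hyO⟩, ?_, rfl⟩
        have h1 : (⟨z, hz⟩ : ↥Oᶜ) ∈ Subtype.val ⁻¹' U N ⟨y, hyO⟩ := hy.1
        rw [hU] at h1
        exact h1
      · simp only [mem_setOf_eq, hyO, dite_false] at hy
        exact absurd hy.1 hz

end Pool.Agent.helper65.Delta
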